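import Pool.Agent.Q44.SA.Stm

set_option autoImplicit false

namespace Pool.Agent.Q31.SA.MK

open MvPolynomial Pool.Agent.Q44.SA

section

variable {K Ω : Type} [Field K] [Field Ω] [Algebra K Ω] {n : ℕ}

/-- Nullstellensatz -/
lemma mem_rad [IsAlgClosed Ω] (J : Ideal (MvPolynomial (Fin n) K)) (f : MvPolynomial (Fin n) K)
    (h : ∀ x : Fin n → Ω, (∀ g ∈ J, eval₂ (algebraMap K Ω) x g = 0) → eval₂ (algebraMap K Ω) x f = 0) :
    f ∈ J.radical := by
  rw [← vanishingIdeal_zeroLocus_eq_radical (K := Ω) J, mem_vanishingIdeal_iff]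
  intro x hx
  exact h x hx

lemma hom_zero {g : MvPolynomial (Fin n) K} {d : ℕ} (hd : 0 < d) (hg : g.IsHomogeneous d) (σ : K →+* Ω) :
    eval₂ σ (0 : Fin n → Ω) g = 0 := by
  rw [eval₂_eq]
  refine Finset.sum_eq_zero fun m hm => ?_
  have h1 : m.degree = d := by
    have := hg (mem_support_iff.mp hm)
    rw [Finsupp.degree_eq_weight_one]
    exact this
  have h2 : ∃ i, m i ≠ 0 := by
    by_contra hcon
    push Not at hcon
    have : m = 0 := Finsupp.ext hcon
    rw [this] at h1
    simp at h1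
    omega
  obtain ⟨i, hi⟩ := h2
  rw [Finset.prod_eq_zero (Finsupp.mem_support_iff.mpr hi) (by simp [hi]), mul_zero]

lemma hom_smul {g : MvPolynomial (Fin n) K} {d : ℕ} (hg : g.IsHomogeneous d) (σ : K →+* Ω) (t : Ω)
    (y : Fin n → Ω) : eval₂ σ (fun a => t * y a) g = t ^ d * eval₂ σ y g := by
  rw [eval₂_eq, eval₂_eq, Finset.mul_sum]
  refine Finset.sum_congr rfl fun m hm => ?_
  have h1 : m.degree = d := by
    have := hg (mem_support_iff.mp hm)
    rw [Finsupp.degree_eq_weight_one]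
    exact this
  have h2 : ∏ i ∈ m.support, (t * y i) ^ m i = t ^ d * ∏ i ∈ m.support, y i ^ m i := by
    simp_rw [mul_pow]
    rw [Finset.prod_mul_distrib, Finset.prod_pow_eq_pow_sum, ← h1]
    rfl
  rw [h2]
  ring

lemma eval_smul {I : Ideal (MvPolynomial (Fin n) K)} (hI : Homog I) (σ : K →+* Ω) {y : Fin n → Ω}
    (hy : ∀ f ∈ I, eval₂ σ y f = 0) (t : Ω) {f : MvPolynomial (Fin n) K} (hf : f ∈ I) :
    eval₂ σ (fun a => t * y a) f = 0 := by
  have h1 : f = ∑ i ∈ Finset.range (f.totalDegree + 1), homogeneousComponent i f :=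
    (sum_homogeneousComponent f).symm
  rw [h1, eval₂_sum]
  refine Finset.sum_eq_zero fun i _ => ?_
  rw [hom_smul (homogeneousComponent_isHomogeneous i f), hy _ (hI f hf i), mul_zero]

lemma eval_zero {I : Ideal (MvPolynomial (Fin n) K)} (hp : I.IsPrime) (hI : Homog I) (σ : K →+* Ω)
    {f : MvPolynomial (Fin n) K} (hf : f ∈ I) : eval₂ σ (0 : Fin n → Ω) f = 0 := by
  have h0 : coeff 0 f = 0 := by
    by_contra hcon
    have h1 := hI f hf 0
    rw [homogeneousComponent_zero] at h1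
    have h2 : (1 : MvPolynomial (Fin n) K) ∈ I := by
      have h3 := I.mul_mem_left (C (coeff 0 f)⁻¹) h1
      rw [← C_mul, inv_mul_cancel₀ hcon, C_1] at h3
      exact h3
    exact hp.ne_top ((Ideal.eq_top_iff_one I).mpr h2)
  have h1 : f = ∑ i ∈ Finset.range (f.totalDegree + 1), homogeneousComponent i f :=
    (sum_homogeneousComponent f).symm
  rw [h1, eval₂_sum]
  refine Finset.sum_eq_zero fun i _ => ?_
  rcases Nat.eq_zero_or_pos i with rfl | hi
  · rw [homogeneousComponent_zero, h0]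
    simp
  · exact hom_zero hi (homogeneousComponent_isHomogeneous i f) σ

omit [Algebra K Ω] in
lemma eval_bind (σ : K →+* Ω) (G : Fin n → MvPolynomial (Fin n) K) (x : Fin n → Ω)
    (f : MvPolynomial (Fin n) K) : eval₂ σ x (bind₁ G f) = eval₂ σ (fun a => eval₂ σ x (G a)) f := by
  have := eval₂Hom_bind₁ σ x G f
  exact this

end

theorem main : S_mk := by
  intro K _ n I hp hI p d F hd hF H
  have hrad : I.radical = I := hp.radical
  refine ⟨fun k => ?_, fun l l' a b => ?_, fun l f hf => ?_⟩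
  · refine mem_rad (Ω := AlgebraicClosure K) _ _ fun x hx => ?_
    rw [eval₂_X]
    by_contra hk
    have hx0 : x ≠ 0 := by
      rintro rfl
      exact hk rfl
    have hPt : Pt (algebraMap K (AlgebraicClosure K)) I x :=
      ⟨hx0, fun f hf => hx f (Ideal.mem_sup_left hf)⟩
    obtain ⟨y, -, -, l, a, hla⟩ := H x hPt
    exact hla (hx _ (Ideal.mem_sup_right (Ideal.subset_span ⟨l, a, rfl⟩)))
  · rw [← hrad]
    refine mem_rad (Ω := AlgebraicClosure K) _ _ fun x hx => ?_
    rw [eval₂_sub, eval₂_mul, eval₂_mul]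
    by_cases hx0 : x = 0
    · subst hx0
      rw [hom_zero (hd l) (hF l a), hom_zero (hd l) (hF l b)]
      simp
    · obtain ⟨y, -, h1, -⟩ := H x ⟨hx0, hx⟩
      obtain ⟨t, ht⟩ := h1 l
      obtain ⟨t', ht'⟩ := h1 l'
      rw [ht a, ht b, ht' a, ht' b]
      ring
  · rw [← hrad]
    refine mem_rad (Ω := AlgebraicClosure K) _ _ fun x hx => ?_
    rw [eval_bind]
    by_cases hx0 : x = 0
    · subst hx0
      have h1 : (fun a => eval₂ (algebraMap K (AlgebraicClosure K)) (0 : Fin n → AlgebraicClosure K) (F l a)) = 0 := by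
        funext a
        exact hom_zero (hd l) (hF l a) _
      rw [h1]
      exact eval_zero hp hI _ hf
    · obtain ⟨y, hy, h1, -⟩ := H x ⟨hx0, hx⟩
      obtain ⟨t, ht⟩ := h1 l
      have h2 : (fun a => eval₂ (algebraMap K (AlgebraicClosure K)) x (F l a)) = fun a => t * y a := funext ht
      rw [h2]
      exact eval_smul hI _ hy.2 t hf

end Pool.Agent.Q31.SA.MK
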